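import Pool.Agent.Helper90.MZ.StmtsT

set_option autoImplicit false

/-! MP_79eb7e_lc, part T, module FEW: few models of `T` give few models of the context -/

namespace Pool.Agent.Helper90.MZ

open Pool.Agent.Helper90.TS
open FirstOrder Language

theorem few_u0 {L : FirstOrder.Language.{0, 0}} {C : Type} [L.Structure C] (T : Dt L C)
    (g : AutG L C) {x : C} (hx : x ∈ T.U0) : g • x ∈ T.U0 := by
  obtain ⟨j, hj⟩ := Set.mem_iUnion.1 hx
  exact Set.mem_iUnion.2 ⟨j, T.phinv g j _ hj⟩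

/-- the transfer of the points of `Φ` gives the transfer of the models (one direction) -/
theorem few_dir {L : FirstOrder.Language.{0, 0}} {C : Type} [L.Structure C] (T : Dt L C)
    (A B : Set T.V)
    (hA : ∀ x : T.V, x ∈ A → ∃ (m : ℕ) (u : Fin m → T.V), (∀ i, u i ∈ A ∧ (u i : C) ∈ T.U0) ∧
      ∀ g : AutG L C, g • u = u → g • x = x)
    (hB : ∀ x : T.V, (∃ (m : ℕ) (u : Fin m → T.V), (∀ i, u i ∈ B ∧ (u i : C) ∈ T.U0) ∧
      ∀ g : AutG L C, g • u = u → g • x = x) → x ∈ B)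
    (g : AutG L C) (h0 : ∀ x : T.V, (x : C) ∈ T.U0 → x ∈ A → g • x ∈ B) (x : T.V) (hx : x ∈ A) :
    g • x ∈ B := by
  obtain ⟨m, u, hu, hf⟩ := hA x hx
  apply hB
  refine ⟨m, g • u, fun i => ⟨h0 (u i) (hu i).2 (hu i).1, few_u0 T g (hu i).2⟩, ?_⟩
  intro k hk
  have h1 : (g⁻¹ * k * g) • u = u := by
    rw [mul_smul, mul_smul, hk]
    simp
  have h2 := hf _ h1
  rw [mul_smul, mul_smul, inv_smul_eq_iff] at h2
  exact h2

theorem st_FEW (h1 : ST_OTT) (h2 : ST_UDC) (h3 : ST_ISOE) : ST_FEW := by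
  intro L C _ T X hX hfew
  rintro ⟨F, hF, hinj⟩
  choose N hNc hN using fun s => h1 L C T X hX (F s) (hF s)
  obtain ⟨s, t, hst, ⟨e⟩⟩ := hfew N hNc
  obtain ⟨g, hg⟩ := h3 L C T.S T.hM (N s) (N t) e (hNc s)
  apply hst
  apply hinj
  refine ⟨g, ?_⟩
  have f1 : ∀ x : T.V, (x : C) ∈ T.U0 → x ∈ F s → g • x ∈ F t := by
    intro x hx hxs
    have h5 : (x : C) ∈ N s := (hN s x hx).2 hxs
    apply (hN t (g • x) (few_u0 T g hx)).1
    have h6 := hg ⟨(x : C), h5⟩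
    change g • (x : C) = _ at h6
    show g • (x : C) ∈ N t
    rw [h6]
    exact (e ⟨(x : C), h5⟩).2
  have f2 : ∀ x : T.V, (x : C) ∈ T.U0 → x ∈ F t → g⁻¹ • x ∈ F s := by
    intro x hx hxt
    have h5 : (x : C) ∈ N t := (hN t x hx).2 hxt
    apply (hN s (g⁻¹ • x) (few_u0 T g⁻¹ hx)).1
    have h6 := hg (e.symm ⟨(x : C), h5⟩)
    rw [FirstOrder.Language.Equiv.apply_symm_apply] at h6
    show g⁻¹ • (x : C) ∈ N s
    have h7 : g⁻¹ • (x : C) = ((e.symm ⟨(x : C), h5⟩ : N s) : C) := by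
      rw [inv_smul_eq_iff]
      exact h6.symm
    rw [h7]
    exact (e.symm ⟨(x : C), h5⟩).2
  have k1 := few_dir T (F s) (F t) (fun x => (h2 L C T X hX (F s) (hF s) x).1)
    (fun x => (h2 L C T X hX (F t) (hF t) x).2) g f1
  have k2 := few_dir T (F t) (F s) (fun x => (h2 L C T X hX (F t) (hF t) x).1)
    (fun x => (h2 L C T X hX (F s) (hF s) x).2) g⁻¹ f2
  ext y
  constructor
  · rintro ⟨x, hx, rfl⟩
    exact k1 x hx
  · intro hy
    exact ⟨g⁻¹ • y, k2 y hy, smul_inv_smul g y⟩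

end Pool.Agent.Helper90.MZ
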